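import Pool.Agent.Q211.PF.Ret
import Pool.Agent.Q211.PF.Kur

/-!
# Removing a small set to make a continuous image `(ω + 1)`-perfect

The generalised Baire space `GB κ`, the games `G_κ(E, x₀, ω + 1)` (`IIWins`) and
`(ω + 1)`-perfect sets (`OmegaPerfect`) are defined in `Pool.Agent.Q211.PF.Def`; retracts
(`Retract`) and continuous images (`BaireImage`) of `GB κ` in `Pool.Agent.Q211.PF.Ret`.
-/

namespace Pool.Agent.Results.MP_e6371f_lc.IndependentOfZFC

open Cardinal Set Order Pool.Agent.Q211.PF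

universe u

/-- The statement asked for in Q1, for the cardinal `κ`. -/
def Question (κ : Cardinal.{u}) : Prop :=
  ∀ E : Set (GB κ), IsClosed E → BaireImage E →
    ∃ X ⊆ E, #X ≤ κ ^< κ ∧ OmegaPerfect (E \ X)

theorem of_psp {κ : Cardinal.{u}} (hκ : κ.IsRegular) (hu : ℵ₀ < κ) (hP : PSP κ)
    (E : Set (GB κ)) (hE : IsClosed E) : ∃ X ⊆ E, #X ≤ κ ^< κ ∧ OmegaPerfect (E \ X) :=
  (questions_of_psp hκ hu hP).2 E (image_all hu.le E hE)

theorem all_of_question {κ : Cardinal.{u}} (hu : ℵ₀ < κ) (h : Question κ)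
    (E : Set (GB κ)) (hE : IsClosed E) : ∃ X ⊆ E, #X ≤ κ ^< κ ∧ OmegaPerfect (E \ X) :=
  all_of_retracts hu.le (fun E hE hR => h E hE hR.image) E hE

theorem not_question {κ : Cardinal.{u}} (hκ : κ.IsRegular) (hu : ℵ₀ < κ)
    (h : ∃ E : Set (GB κ), IsClosed E ∧ κ ^< κ < #E ∧ SmallLevels E) :
    ∃ E : Set (GB κ), IsClosed E ∧ Retract E ∧
      ∀ X ⊆ E, #X ≤ κ ^< κ → ¬ OmegaPerfect (E \ X) := by
  by_contra hcon
  push Not at hcon
  obtain ⟨E, hE, hbig, hsm⟩ := h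
  obtain ⟨X, hX, hc, hP⟩ := all_of_retracts hu.le (fun E hE hR => by
    obtain ⟨X, h1, h2, h3⟩ := hcon E hE hR
    exact ⟨X, h1, h2, h3⟩) E hE
  have hex : ∃ x, x ∈ E \ X := by
    by_contra hcon
    push Not at hcon
    have : E ⊆ X := fun x hx => by
      by_contra hxX
      exact hcon x ⟨hx, hxX⟩
    exact absurd (hbig.trans_le ((mk_le_mk_of_subset this).trans hc)) (lt_irrefl _)
  obtain ⟨x, hx⟩ := hex
  exact not_wins hκ hu E hsm x ((hP.2 x hx).mono diff_subset)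

/-- * For `κ` regular uncountable, Q1 for the closed continuous images of `κ^κ`, Q1 for the
  closed retracts of `κ^κ` and Q1 for all closed subsets of `κ^κ` are equivalent.
* They hold at `κ` if every closed set with more than `κ^{<κ}` points has a nonempty
  `(ω + 1)`-perfect subset.
* If some closed set with more than `κ^{<κ}` points has fewer than `2^ℵ₀` nodes on every level
  below `κ`, then some closed retract `E` of `κ^κ` has no `X ⊆ E` with `|X| ≤ κ^{<κ}` and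
  `E ∖ X` `(ω + 1)`-perfect.
* In particular, under `2^ℵ₀ = ℵ₁` and the existence of a Kurepa family, such an `E` exists
  for `κ = ω₁`. -/
theorem result :
    (∀ κ : Cardinal.{u}, κ.IsRegular → ℵ₀ < κ →
      (Question κ ↔ ∀ E : Set (GB κ), IsClosed E →
        ∃ X ⊆ E, #X ≤ κ ^< κ ∧ OmegaPerfect (E \ X)) ∧
      (Question κ ↔ ∀ E : Set (GB κ), IsClosed E → Retract E →
        ∃ X ⊆ E, #X ≤ κ ^< κ ∧ OmegaPerfect (E \ X))) ∧
    (∀ κ : Cardinal.{u}, κ.IsRegular → ℵ₀ < κ → PSP κ → Question κ) ∧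
    (∀ κ : Cardinal.{u}, κ.IsRegular → ℵ₀ < κ →
      (∃ E : Set (GB κ), IsClosed E ∧ κ ^< κ < #E ∧ SmallLevels E) →
      ∃ E : Set (GB κ), IsClosed E ∧ Retract E ∧
        ∀ X ⊆ E, #X ≤ κ ^< κ → ¬ OmegaPerfect (E \ X)) ∧
    ((2 : Cardinal.{u}) ^ ℵ₀ = ℵ₁ → KurepaFamily.{u} →
      (¬ Question (ℵ₁ : Cardinal.{u})) ∧
      ∃ E : Set (GB (ℵ₁ : Cardinal.{u})), IsClosed E ∧ Retract E ∧
        ∀ X ⊆ E, #X ≤ (ℵ₁ : Cardinal.{u}) ^< ℵ₁ → ¬ OmegaPerfect (E \ X)) := by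
  refine ⟨fun κ hκ hu => ⟨⟨fun h => all_of_question hu h, fun h E hE _ => h E hE⟩,
    ⟨fun h E hE hR => h E hE hR.image, fun h E hE _ => all_of_retracts hu.le h E hE⟩⟩,
    fun κ hκ hu hP E hE _ => of_psp hκ hu hP E hE,
    fun κ hκ hu h => not_question hκ hu h, fun hCH hK => ?_⟩
  have h1 := not_question isRegular_aleph_one aleph0_lt_aleph_one (Kur.kurepa_set hCH hK)
  refine ⟨fun hQ => ?_, h1⟩
  obtain ⟨E, hE, hR, h2⟩ := h1
  obtain ⟨X, h3, h4, h5⟩ := hQ E hE hR.image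
  exact h2 X h3 h4 h5

end Pool.Agent.Results.MP_e6371f_lc.IndependentOfZFC
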